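import Pool.Agent.Helper99.BT.Defs

/-! BT (MP_4e849b_lc), pieces C4 and C5: the two sides and the windows. -/

set_option autoImplicit false

namespace Pool.Agent.Helper1.BT

open Finset Pool.Agent.Helper74.NW Pool.Agent.Helper96.BT Pool.Agent.Helper99.BT
open Pool.Agent.Helper99.NK (times)

section lists

variable {C : Type} {S q J w : ℕ} {H : Fin q → C}

theorem flatMap_inj {α : Type} (L : List α) (f g : α → List C)
    (h : L.flatMap f = L.flatMap g) (hl : ∀ a ∈ L, (f a).length = (g a).length) : ∀ a ∈ L, f a = g a := by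
  induction L with
  | nil => intro a ha; simp at ha
  | cons x L ih =>
    rw [List.flatMap_cons, List.flatMap_cons] at h
    obtain ⟨h1, h2⟩ := List.append_inj h (hl x (List.mem_cons_self ..))
    intro a ha
    rcases List.mem_cons.1 ha with rfl | ha
    · exact h1
    · exact ih h2 (fun b hb => hl b (List.mem_cons_of_mem _ hb)) a ha

theorem seg_length {b : ℕ → ℕ} (hb : Monotone b) {l : List C} (hl : b J ≤ l.length) {j : ℕ} (hj : j < J) :
    (seg b l j).length = b (j + 1) - b j := by
  have h1 : b (j + 1) ≤ b J := hb hj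
  have h2 : b j ≤ b (j + 1) := hb (Nat.le_succ j)
  unfold seg
  rw [List.length_take, List.length_drop]
  omega

/-- C5: the converse, for any `A`. -/
theorem phiS_partb (A : Finset (Fin J)) {b : ℕ → ℕ} (hb : Monotone b) {V : ℕ → Fin q → ℕ} {l : List C}
    (hl : b J ≤ l.length) (h : ∀ j < J, WinP H w j (V j) (V (j + 1)) (seg b l j)) :
    PhiS H w A b V (partb A b l) :=
  ⟨fun j => seg b l j, rfl, fun j _ => ⟨seg_length hb hl j.isLt, h j.val j.isLt⟩⟩

theorem winP_side {A : Finset (Fin J)} {b : ℕ → ℕ} (hb : Monotone b) {V : ℕ → Fin q → ℕ} {l : List C}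
    (hl : b J ≤ l.length) (h : PhiS H w A b V (partb A b l)) (j : Fin J) (hj : j ∈ A) :
    WinP H w j.val (V j.val) (V (j.val + 1)) (seg b l j.val) := by
  obtain ⟨cs, h1, h2⟩ := h
  have h3 := flatMap_inj ((List.finRange J).filter (fun j => j ∈ A)) (fun j => seg b l j.val)
    (fun j => cs j.val) h1 (fun a ha => by
      have ha' : a ∈ A := by simpa using (List.mem_filter.1 ha).2
      rw [(h2 a ha').1]
      exact seg_length hb hl a.isLt) j (List.mem_filter.2 ⟨List.mem_finRange j, by simpa using hj⟩)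
  have h4 : seg b l j.val = cs j.val := h3
  rw [h4]
  exact (h2 j hj).2

/-- C4: if the two sides satisfy `PhiS`, all windows satisfy `WinP`. -/
theorem winP_of_sides {A : Finset (Fin J)} {b : ℕ → ℕ} (hb : Monotone b) {V : ℕ → Fin q → ℕ} {l : List C}
    (hl : b J ≤ l.length) (h : PhiS H w A b V (partb A b l)) (h' : PhiS H w Aᶜ b V (partb Aᶜ b l)) :
    ∀ j < J, WinP H w j (V j) (V (j + 1)) (seg b l j) := by
  intro j hj
  by_cases hA : (⟨j, hj⟩ : Fin J) ∈ A
  · exact winP_side hb hl h ⟨j, hj⟩ hA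
  · exact winP_side hb hl h' ⟨j, hj⟩ (Finset.mem_compl.2 hA)

end lists

end Pool.Agent.Helper1.BT
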